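import Pool.Agent.Helper58.ST.Up
import Pool.Agent.Helper58.CC.Lo

/-!
# The invertible-map test on structures with bounded colour classes

A binary structure `(V, r)` has a label `r v w` for every pair of elements (an arc-coloured
digraph); the label of `(v, v)` is the colour of `v`. Already for colour classes of size `4` the
Weisfeiler-Leman method fails in every fixed dimension (Cai, Fürer and Immerman).

1. For every `c` the invertible-map test of Dawar and Holm over the fields of prime characteristic at
most `c` identifies, in all dimensions above a constant `K`, all structures whose colour classes have
at most `c` elements. Nothing is assumed about the structures on the colour classes.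

2. If the structures on the colour classes have commuting automorphisms, dimension `2 c ^ 2 + 2` suffices.

3. For every `k` there are two structures with colour classes of size `(16 k) ^ 2` with commuting
automorphisms and with at most `C k ^ 6` elements which are not isomorphic but which the test over all
fields of all characteristics at once does not distinguish in any dimension `j ≤ k`.

Proof of 1 (`Pool/Agent/Helper58/ST`, with packages by helpers 25, 31, 36, 47, 70, 82, 88).
(a) Let `G_i` be the group of the automorphisms of the class `i`. The equivalence relation on the tuples
gives a system of cosets: for every set `T` of colours the set `S T` of the elements of the product of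
the `G_i` that, composed with a fixed isomorphism of the classes, respect the relation on the tuples
with colours in `T`. A similarity matrix for a pair of tuples gives, over `F_l`, for every
position `σ ∈ S U`, `|U| ≤ m`, a linear functional `E` on the functions on `∏ G_i` that does not kill
the indicator of `σ` on `U` and kills the functions of at most `m` coordinates `T` that vanish
on `S T`. We show: if `φ` is a sum of functions of at most `n` coordinates and vanishes on
all global points `⋂_{|T| ≤ n} S T`, then `E φ = 0` (`l ≤ c` prime, `m ≥ m (n, c)`). So there is a
global point, an isomorphism.
(b) Induction on `max |G_i|`: one passes to the quotients by minimal normal subgroups `N_i` of the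
largest `G_i`, all of the same type (nonabelian, or elementary abelian for one prime `p`), and gets the
assertion for the set `Y` of the points of the quotient system.
(c) Nonabelian type: the groups `N_i` are perfect, commutators show that the systems are generated by
links between two coordinates, and there is a retraction from `Y` to the points of `S` every coordinate
of which depends on two coordinates.
(d) Type `p`, functionals over `F_p`: the obstructions to correct a point `b ∈ Y` by an element of
`N = ∏ N_i` so that it is in `S T` for `|T| ≤ n₀` form a semisimple module `U` over `F_p` for the left
stabiliser `Λ` of `Y`, and the values are a crossed homomorphism `κ`. An element `c ∈ U` that generates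
a simple module and whose `κ` vanishes on its centraliser has a local value function, so it is zero by
the hypothesis. The simple modules are treated in the order of `|Λ : C_Λ (M)|`; an argument
with chief factors shows that in each step the values are attained by elements that centralise the
modules of this step, so by a `p`-group `P`, which acts unipotently on functions of few coordinates
modulo `p`; so there is a retraction of bounded degree. In the last step one takes `P = N`.
(e) Type `p`, functionals over `F_l`, `l ≠ p`: the set of the new points is a torsor of a subgroup
of `Λ` whose index is a power of `p`, and one averages over a Sylow `p`-subgroup.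

Proof of 2: the characters of `Z/p^(m+1)` are expanded in the binomial basis, see
`Pool/Agent/Helper58/CC/Up.lean`.

Proof of 3. The elements are pairs (partial sum, entry) in `Z/2^(q+1)` along the rows and columns of a
matrix, `4 k < 2^q ≤ 8 k`; the sums of the rows are changed by `b` with total `2^q`. In
characteristic two the weights are those of the recursive design of
`MP_f1a348_lc.IRAllFields` (`Pool/Agent/Helper58/AF`), in the other characteristics one averages.
-/

set_option autoImplicit false

namespace Pool.Agent.Results.MP_f1a348_lc.BoundedColours

open Pool.Agent.Helper58.CC Pool.Agent.Helper58.ST

theorem result :
    (∀ c : ℕ, ∃ K : ℕ, ∀ (k : ℕ) (V V' L : Type) [Fintype V] [Fintype V'] (r : V → V → L)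
      (r' : V' → V' → L), BoundedColours c r → K ≤ k →
      IMEquivL {p | p.Prime ∧ p ≤ c} k r r' → Iso r r') ∧
    (∀ (c k : ℕ) (V V' L : Type) [Fintype V] [Fintype V'] (r : V → V → L) (r' : V' → V' → L),
      1 ≤ c → AbelianColours c r → 2 * c ^ 2 + 2 ≤ k →
      IMEquivL {p | p.Prime ∧ p ≤ c} k r r' → Iso r r') ∧
    ∃ C : ℕ, ∀ k : ℕ, 1 ≤ k →
      ∃ (V L : Type) (_ : Fintype V) (r r' : V → V → L), Fintype.card V ≤ C * k ^ 6 ∧
        AbelianColours ((16 * k) ^ 2) r ∧ AbelianColours ((16 * k) ^ 2) r' ∧ ¬ Iso r r' ∧
        ∀ j : ℕ, j ≤ k → IMEquivL Set.univ j r r' := by
  classical
  exact ⟨bounded_upper, fun c k V V' L _ _ r r' hc hA hk h => upper hc hA hk h, _,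
    fun k hk => lower k hk⟩

end Pool.Agent.Results.MP_f1a348_lc.BoundedColours
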