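import Pool.Agent.Helper58.M2.Cmp

/-!
# Graph isomorphism, linear algebra and the multiplicities of eigenvalues

Isomorphism of graphs whose eigenvalues have bounded multiplicity is decidable in polynomial time by
group theory (Babai, Grigoryev and Mount 1982). We ask what linear algebra alone can do for these
graphs. The invertible-map test of Dawar and Holm refines the colouring of the `k`-tuples of vertices
of a graph by the simultaneous similarity of the matrices that the colours define. It takes
polynomial time for fixed `k`, and it is at least as strong as the `k`-dimensional
Weisfeiler-Leman method and as the equivalence in the logics that extend fixed-point logic by linear
algebra over finite fields (rank logic among them) with `k` variables. The theorem says that the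
threshold is between multiplicity one and multiplicity two.

Parts 1 and 2 (at most one multiple eigenvalue). If all eigenvalues of a graph but one are simple,
while the remaining one has any multiplicity, then the test in four variables over the fields in
which `3` is not zero (or any other odd number; the proof only uses characteristic zero and two)
identifies the graph. With `b` further variables, up to `b` eigenvalues
(counted with their multiplicities) besides the exceptional one may be multiple; and instead of the
adjacency matrix one may take the Laplacian, the distance matrix, or any symmetric matrix that is
computed from the graph by matrix products and by applying functions to the entries, as long as its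
entries tell the edges from the non-edges.

Part 3 (multiplicity two). For every `k` there are two non-isomorphic graphs with
`O(k ^ 10 log k)` vertices, all of whose eigenvalues have multiplicity at most two, which are not
distinguished by the test over all fields at once in any dimension up to `k`. So for these graphs
the dimension must grow as a power of the number of vertices, and so it cannot be bounded in terms
of the multiplicities of the eigenvalues, while Part 1 bounds it by the number of
multiple eigenvalues: the bound `b + 4` of Part 1 is best possible up to a power. Before, such lower
bounds were known for simple eigenvalues and fields of characteristic different from two
(library result `MP_128e7d_lc.SimpleSpectrum`); by Part 2 characteristic two cannot be included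
there.

Idea of the proof of Part 1. Let `u ~ v` if all matrices that are constant on the classes of the
stable relation have the same diagonal entries at `u` and `v`. In a class (cell) the signs of the
entries of the eigenvectors of the simple eigenvalues form an affine space over the field with two
elements, and an isomorphism exists if and only if one can choose one vertex of every cell of the
first graph such that the sign products of all pairs of chosen vertices are as in a fixed choice for
the second graph. This is a system of linear equations over the field with two elements: the
unknowns are indexed by the pairs of vertices, and the matrix of the system is a linear combination
of the class matrices of the stable relation. So the invertible maps of the test carry the solution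
for the second graph to a solution for the first graph; affine combinations of sign vectors turn
this solution into a choice of vertices. The other eigenvectors different from the exceptional
eigenvalue are determined by `b` pebbles.

Idea of the proof of Part 3. Let `M = 2 ^ (q + 1)`, `K = 2 ^ q - 1` and `N = 4 ^ q + 2 ^ q`. Consider
the `N × N` matrices over the integers modulo `M` all whose row sums and column sums are zero, except
that the first row sum is `2 ^ q`. There are none, but all conditions on at most `K` rows and
columns can be satisfied, and there are weights on these local solutions that fit together, over
every field (this is the system, and the method, of `Pool/Agent/Helper58/AF`). The row and column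
conditions are split into conditions on three elements by partial sums, and these are turned into
nodes with `M ^ 2` states `(a, b)` in the way of Cai, Fürer and Immerman. A path is attached to every
state. Its length names the node: the lengths plus one are different primes. The second, third and
fourth vertices of the paths of a node carry Cayley graphs of the group of the states, with the
steps `(1, 0)`, `(0, 1)` and `(1, 1)`.

The Fourier transform on the group of states turns the equation of an eigenvector for the eigenvalue
`μ` into equations for coefficients indexed by nodes and characters `(x, y)`, with coefficients
`D(x, y)` which are the characteristic polynomials at `μ` of paths with loops `2 cos x`, `2 cos y`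
and `2 cos (x + y)` at the second, third and fourth vertex, and with coupling terms divisible by `M`.
Take a valuation of the complex numbers above `2`. The residues of the loops are zero, so the
residue of `D(x, y)` is the characteristic polynomial of a path without loops, and by the choice of
the lengths this is a unit for all nodes but one. At this node the valuation of `D(x, y)` is at least
that of `M ^ 2` for all characters that occur in an eigenvector for `μ`. But the differences of the
loops have smaller valuations, with leading coefficient one with respect to the uniformizer
`1 - exp (2 π i / M)`, and the residues of their coefficients in `D(x, y) - D(x', y')` are the squares
of `μ`, `μ ^ 2 + 1` and `μ ^ 3`, which are linearly independent over the field with two elements as the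
length plus one is a prime larger than `7`. So `(x, y)` and `(x', y')` are equal or inverse to
each other.
-/

set_option autoImplicit false

namespace Pool.Agent.Results.MP_f1a348_lc.EigenvalueMultiplicities

open Pool.Agent.Helper58.IM Pool.Agent.Helper58.M2
open Pool.Agent.TH658.Sos (IMEquiv)
open Pool.Agent.W185.SRG (WLEquivalent)

/-- **Linear algebra decides isomorphism for one multiple eigenvalue, but not for multiplicity
two.** Here `excess A lam` is the number of roots different from `lam` of the characteristic
polynomial of `A` that are not simple, counted with multiplicity, and `eigMult G μ` is the
dimension of the eigenspace of the adjacency matrix for `μ`. The second part is the special case of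
the first one for the adjacency matrix and `b = 0`. -/
theorem result :
    (∀ p : ℕ, p % 2 = 1 → ∀ (M : GMat) (b : ℕ) (V W : Type) [Fintype V] [Fintype W]
      (G : SimpleGraph V) (H : SimpleGraph W),
      (M.eval G).IsSymm →
      (∀ x y x' y', x ≠ y → x' ≠ y' → M.eval G x y = M.eval G x' y' →
        (G.Adj x y ↔ G.Adj x' y')) →
      ∀ lam : ℝ, excess (M.eval G) lam ≤ b → IMEquiv p (b + 4) G H → Nonempty (G ≃g H)) ∧
    (∀ (V W : Type) [Fintype V] [Fintype W] (G : SimpleGraph V) (H : SimpleGraph W) (lam : ℝ),
      (∀ μ : ℝ, μ ≠ lam → eigMult G μ ≤ 1) → IMEquiv 3 4 G H → Nonempty (G ≃g H)) ∧
    ∃ C : ℕ, ∀ k : ℕ, 1 ≤ k →
      ∃ (V : Type) (_ : Fintype V) (G H : SimpleGraph V),
        Fintype.card V ≤ C * (k ^ 10 * (Nat.log 2 k + 1)) ∧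
        (∀ μ : ℝ, eigMult G μ ≤ 2 ∧ eigMult H μ ≤ 2) ∧ IsEmpty (G ≃g H) ∧
        ∀ j ≤ k, WLEquivalent j G H ∧ IMEquiv 1 j G H :=
  ⟨fun p hp M b V W _ _ G H hsym hsep lam hspec him =>
    Pool.Agent.Helper58.IM.main_thm p hp M b V W G H hsym hsep lam hspec him,
    fun V W _ _ G H lam h him => main_adj' V W G H lam h him,
    Pool.Agent.Helper58.M2.main_thm⟩

end Pool.Agent.Results.MP_f1a348_lc.EigenvalueMultiplicities
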