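import Pool.Agent.Helper58.IR.Mn

/-!
# Individualization-refinement with linear algebra over all fields needs exponential time

There is a constant `C` such that for every `k ≥ 1` there are two non-isomorphic graphs `G`, `H`
with at most `C k ^ 28` vertices such that the individualization-refinement method with the
`j`-dimensional invertible-map test of Dawar and Holm over *all* fields (of all characteristics at
once) as refinement, for any `j ≤ k`, and with any cell selector which is invariant for this test,
has to visit `2 ^ k` nodes, although it is allowed to prune with all invariants of the test and with
all automorphisms: this is so for the comparison of `G` with `H`, of `H` with `G`, and for the search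
in the tree of `G` or of `H` alone (canonical labelling, automorphisms).

Construction. Let `M = 2 ^ (q + 1)` with `2 ^ q` of order `k ^ 2`, let `n = 4 ^ q + 2 ^ q` and let
`ι` be a set of `2 n + 1` indices. For every `j` in `ι` there is a bit `y j` and an `n × n` matrix
over the integers modulo `M` all whose row sums and column sums are zero, except that the sum of the
first row is `2 ^ q * y j`. So all bits are zero. But this is not seen on less than `2 ^ q` rows and
columns, not even by linear algebra over a field: in characteristic two there are weights on the
matrices that satisfy the conditions on few rows and columns (see `Pool/Agent/Helper58/AF`), and
the product of these weights for all `j`, with arbitrary bits `y j`, gives intertwining matrices.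

If the values of the bits were only stored at special places of the graph then a clever cell
selector would avoid these places: the search would first find the matrix `j` up to automorphisms,
without branching, and would then see that `y j` is zero. Therefore every vertex which
belongs to the row (or column) `l` of the matrix `j` also stores a value for the bit `j` and one for
the bit `f j l`, where `l ↦ f j l` is injective; the graph has two more vertices for every bit, and
these force the stored values of a bit to be the same. So any `(k + 2) ^ 2` rows and columns store at
least `k + 2` different bits, and the individualization of vertices in so many rows and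
columns is a choice between at least `2 ^ k` possibilities which are not equivalent under
automorphisms, but not distinguished by the test. The graphs `G` and `H` are not isomorphic because
of a twist between the vertices for the bits `0` and `1`.
-/

set_option autoImplicit false

namespace Pool.Agent.Results.MP_f1a348_lc.IRAllFields

open Pool.Agent.Y598.IM

/-- **Individualization-refinement with the invertible-map test over all fields visits
exponentially many nodes.** The first part says that selectors and leaves always exist. -/
theorem result :
    (∀ (V : Type) [Fintype V] (j : ℕ), 1 ≤ j →
      (∃ sel : (V → V → Prop) → List V → Set V, IsSelector 1 j sel) ∧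
      ∀ sel : (V → V → Prop) → List V → Set V, IsSelector 1 j sel →
        ∀ A : V → V → Prop, ∃ v, IsLeaf sel A v) ∧
    ∃ C : ℕ, ∀ k : ℕ, 1 ≤ k →
      ∃ (V : Type) (_ : Fintype V) (G H : SimpleGraph V), Fintype.card V ≤ C * k ^ 28 ∧
        IsEmpty (G ≃g H) ∧
        ∀ X Y : SimpleGraph V, (X = G ∨ X = H) → (Y = G ∨ Y = H) → ∀ j : ℕ, 1 ≤ j → j ≤ k →
          Indist 1 j X.Adj [] Y.Adj [] ∧
          ∀ sel : (V → V → Prop) → List V → Set V, IsSelector 1 j sel →
            ∀ (v : List V) (E : Finset (List V)), IsLeaf sel X.Adj v →
              Explores 1 j sel X.Adj v Y.Adj E → 2 ^ k ≤ E.card :=
  ⟨fun _ _ _ hj => ⟨exists_isSelector hj, fun _ hsel A => exists_leaf hj hsel A⟩,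
    Pool.Agent.Helper58.IR.main⟩

end Pool.Agent.Results.MP_f1a348_lc.IRAllFields
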