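import Pool.Agent.Helper58.SC.Fin
import Pool.Agent.Helper58.SC.Gates

/-!
# Symmetric circuits with linear-algebraic gates for graph isomorphism have exponential size

A symmetric circuit for graphs with the set `V` of vertices is a circuit on whose gates all
permutations of `V` act as automorphisms (Anderson and Dawar; Dawar and Wilsenach for gates which
compute ranks of matrices). Symmetric circuits of polynomial size are the nonuniform version of
fixed-point logic with counting, or of rank logic if there are rank gates. Here a gate has a square
matrix of arguments, with values in an arbitrary set, and may compute an arbitrary function of this
matrix which is the same for matrices that are simultaneously similar over all fields (`Similar`):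
`Gates.lean` shows that this covers thresholds, sums and products, and ranks, determinants and
characteristic polynomials over any field.

Theorem: for infinitely many `n` there are two non-isomorphic graphs with `n` vertices and of maximum
degree at most three such that every symmetric circuit which gives different outputs for them has size
at least `2 ^ (c * n ^ (1 / 10))`. In particular, a symmetric circuit which decides if its input is
isomorphic to the first of these graphs has at least this size; and the same holds for circuits
which decide if two given graphs of maximum degree three are isomorphic and which are symmetric under
the permutations of the vertices of the second graph (fix the first graph; gates with the empty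
matrix are constants).

Proof. The graphs are those of `Pool/Agent/Helper58/AF` (the polynomial lower bound for the dimension
of the invertible-map test over all fields itself, with an exponent `1 / 12`, is the result
`MP_128e7d_lc.AllFieldsDegreeThree` of the library). A gate or a row of a circuit of size `s` is
fixed by a subgroup of index at most `s` of the symmetric group, and such a subgroup contains all
even permutations that fix `6 * log₂ s` points (`exists_supp`): in a maximal family of disjoint
three-cycles outside of the subgroup there are at most `2 * log₂ s`, since each of the commutators
that are not obtained doubles the index. So gates and rows have names which are short tuples of
vertices, and by induction on the level the values of gates with names in the same class of the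
invertible-map test are equal: the matrix `P` which the test gives for tuples descends to the rows,
though a row may have several names and the number of names may be zero in the field (`descend`).
-/

set_option autoImplicit false

namespace Pool.Agent.Results.MP_f1a348_lc.SymmetricCircuits

open Pool.Agent.Helper58.SC

/-- **Symmetric circuits with linear-algebraic gates over all fields need exponential size to
distinguish some graphs of maximum degree three.** -/
theorem result : ∃ c : ℝ, 0 < c ∧ ∀ m : ℕ, ∃ (V : Type) (_ : Fintype V) (G H : SimpleGraph V),
    m ≤ Fintype.card V ∧
    (∀ v, (G.neighborSet v).ncard ≤ 3 ∧ (H.neighborSet v).ncard ≤ 3) ∧ IsEmpty (G ≃g H) ∧
    ∀ (Val : Type) (C : SymCircuit V Val), C.value G ≠ C.value H →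
      (2 : ℝ) ^ (c * (Fintype.card V : ℝ) ^ (1 / 10 : ℝ)) ≤ C.size :=
  main_sc

end Pool.Agent.Results.MP_f1a348_lc.SymmetricCircuits
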